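import Pool.Agent.U722.FF.Stm

set_option autoImplicit false

/-! Project FF, package VERT (bounded groups which meet the kernel of the evaluation at the origin). -/

namespace Pool.Agent.U208.FFP

open U722.FF Matrix MvPolynomial

variable {n : ℕ}

theorem int_case (τ δ s : ℤ) (hδ : δ = 1 ∨ δ = -1) (h : s ^ 2 - τ * s + δ = 0) :
    1 - τ + δ = 0 ∨ 1 + τ + δ = 0 := by
  have h1 : s ∣ 1 := by
    rcases hδ with rfl | rfl
    · exact ⟨τ - s, by linear_combination h⟩
    · exact ⟨s - τ, by linear_combination -h⟩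
  rcases Int.isUnit_iff.1 (isUnit_of_dvd_one h1) with rfl | rfl
  · left; linear_combination h
  · right; linear_combination h

/-- a root in the field of fractions -/
theorem root_case (τ δ : ℤ) (hδ : δ = 1 ∨ δ = -1) (z w : MvPolynomial (Fin n) ℤ) (hw : w ≠ 0)
    (h : z ^ 2 - C τ * z * w + C δ * w ^ 2 = 0) : 1 - τ + δ = 0 ∨ 1 + τ + δ = 0 := by
  let R := MvPolynomial (Fin n) ℤ
  let F := FractionRing R
  have hw' : algebraMap R F w ≠ 0 := by
    intro h0
    exact hw ((IsFractionRing.injective R F) (by rw [h0, map_zero]))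
  have h1 : algebraMap R F z ^ 2 - algebraMap R F (C τ) * algebraMap R F z * algebraMap R F w
      + algebraMap R F (C δ) * algebraMap R F w ^ 2 = 0 := by
    have := congrArg (algebraMap R F) h
    simpa only [map_add, map_sub, map_mul, map_pow, map_zero] using this
  let l : F := algebraMap R F z / algebraMap R F w
  have h2 : l ^ 2 - algebraMap R F (C τ) * l + algebraMap R F (C δ) = 0 := by
    have h3 : l * algebraMap R F w = algebraMap R F z := div_mul_cancel₀ _ hw'
    have h4 : (l ^ 2 - algebraMap R F (C τ) * l + algebraMap R F (C δ)) * algebraMap R F w ^ 2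
        = 0 := by
      rw [← h1, ← h3]; ring
    rcases mul_eq_zero.1 h4 with h5 | h5
    · exact h5
    · exact absurd h5 (pow_ne_zero 2 hw')
  have h3 : IsIntegral R l := by
    refine ⟨Polynomial.X ^ 2 - Polynomial.C (C τ) * Polynomial.X + Polynomial.C (C δ), ?_, ?_⟩
    · monicity!
    · simp only [Polynomial.eval₂_add, Polynomial.eval₂_sub, Polynomial.eval₂_mul,
        Polynomial.eval₂_pow, Polynomial.eval₂_X, Polynomial.eval₂_C]
      exact h2
  obtain ⟨s, hs⟩ := (IsIntegrallyClosed.isIntegral_iff (R := R) (K := F)).1 h3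
  have h4 : s ^ 2 - C τ * s + C δ = 0 := by
    apply IsFractionRing.injective R F
    rw [← hs] at h2
    simpa only [map_add, map_sub, map_mul, map_pow, map_zero] using h2
  have h5 := congrArg (MvPolynomial.eval (fun _ => (0 : ℤ))) h4
  simp only [map_add, map_sub, map_mul, map_pow, map_zero, eval_C] at h5
  exact int_case τ δ _ hδ h5

/-- an eigenvector -/
theorem eigen (p q r s : MvPolynomial (Fin n) ℤ) (τ δ : ℤ) (hδ : δ = 1 ∨ δ = -1)
    (ht : p + s = C τ) (hd : p * s - q * r = C δ) (w0 w1 : MvPolynomial (Fin n) ℤ)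
    (hw : w0 ≠ 0 ∨ w1 ≠ 0) (h : w0 * (r * w0 + s * w1) = w1 * (p * w0 + q * w1)) :
    1 - τ + δ = 0 ∨ 1 + τ + δ = 0 := by
  rcases hw with hw | hw
  · apply root_case τ δ hδ (p * w0 + q * w1) w0 hw
    rw [← ht, ← hd]
    linear_combination -q * h
  · apply root_case τ δ hδ (r * w0 + s * w1) w1 hw
    rw [← ht, ← hd]
    linear_combination r * h

theorem core (p q r s u00 u01 u10 u11 : MvPolynomial (Fin n) ℤ) (τ τu τua δ δu : ℤ)
    (hδ : δ = 1 ∨ δ = -1) (ht : p + s = C τ) (hd : p * s - q * r = C δ)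
    (hut : u00 + u11 = C τu) (hud : u00 * u11 - u01 * u10 = C δu)
    (hua : u00 * p + u01 * r + (u10 * q + u11 * s) = C τua)
    (e00 : MvPolynomial.eval (fun _ => (0 : ℤ)) u00 = 1)
    (e01 : MvPolynomial.eval (fun _ => (0 : ℤ)) u01 = 0)
    (e10 : MvPolynomial.eval (fun _ => (0 : ℤ)) u10 = 0)
    (e11 : MvPolynomial.eval (fun _ => (0 : ℤ)) u11 = 1)
    (hne : ¬ (u00 = 1 ∧ u01 = 0 ∧ u10 = 0 ∧ u11 = 1)) :
    1 - τ + δ = 0 ∨ 1 + τ + δ = 0 := by
  have h1 : τu = 2 := by
    have := congrArg (MvPolynomial.eval (fun _ => (0 : ℤ))) hut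
    simp only [map_add, eval_C, e00, e11] at this
    linarith
  have h2 : δu = 1 := by
    have := congrArg (MvPolynomial.eval (fun _ => (0 : ℤ))) hud
    simp only [map_sub, map_mul, eval_C, e00, e11, e01, e10] at this
    linarith
  have h3 : τua = τ := by
    have h4 := congrArg (MvPolynomial.eval (fun _ => (0 : ℤ))) hua
    have h5 := congrArg (MvPolynomial.eval (fun _ => (0 : ℤ))) ht
    simp only [map_add, map_mul, eval_C, e00, e11, e01, e10] at h4 h5
    linarith
  subst h1 h2 h3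
  have k1 : u00 + u11 = 2 := by rw [hut]; simp
  have k2 : u00 * u11 - u01 * u10 = 1 := by rw [hud]; simp
  have k4 : (C τua : MvPolynomial (Fin n) ℤ) = p + s := ht.symm
  rw [k4] at hua
  have k5 : u11 = 2 - u00 := by linear_combination k1
  subst k5
  by_cases hw : u00 - 1 ≠ 0 ∨ u10 ≠ 0
  · apply eigen p q r s τua δ hδ ht hd (u00 - 1) u10 hw
    linear_combination (-r) * k2 - u10 * hua
  · push Not at hw
    have hw' : u01 ≠ 0 ∨ -(u00 - 1) ≠ 0 := by
      left
      intro h0
      apply hne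
      have h6 : u00 = 1 := by linear_combination hw.1
      exact ⟨h6, h0, hw.2, by rw [h6]; norm_num⟩
    apply eigen p q r s τua δ hδ ht hd u01 (-(u00 - 1)) hw'
    linear_combination u01 * hua + q * k2

theorem t_VERT (hT : S_TRC) : S_VERT := by
  intro n c H _ ρ hρ hc hu h
  obtain ⟨u, hu1, hu0⟩ := hu
  have htr : ∀ g : H, ∃ τ : ℤ, (ρ g).1.trace = C τ := by
    intro g
    apply hT n c (ρ g)
    intro k i j
    rw [← map_pow]
    exact hc (g ^ k) i j
  have hdt : ∀ g : H, ∃ δ : ℤ, (δ = 1 ∨ δ = -1) ∧ (ρ g).1.det = C δ := by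
    intro g
    have h1 : IsUnit (ρ g).1.det := (Matrix.isUnit_iff_isUnit_det _).1 (ρ g).isUnit
    obtain ⟨δ, hδ, h2⟩ := MvPolynomial.isUnit_iff_eq_C_of_isReduced.1 h1
    exact ⟨δ, Int.isUnit_iff.1 hδ, h2⟩
  obtain ⟨τ, hτ⟩ := htr h
  obtain ⟨δ, hδ, hd⟩ := hdt h
  obtain ⟨τu, hτu⟩ := htr u
  obtain ⟨δu, _, hdu⟩ := hdt u
  obtain ⟨τua, hτua⟩ := htr (u * h)
  have hev : ∀ i j, MvPolynomial.eval (fun _ => (0 : ℤ)) ((ρ u).1 i j)
      = (1 : Matrix (Fin 2) (Fin 2) ℤ) i j := by
    intro i j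
    have h1 := congrArg (fun g : GL (Fin 2) ℤ => g.1 i j) hu0
    simpa [ev0] using h1
  have key : 1 - τ + δ = 0 ∨ 1 + τ + δ = 0 := by
    rw [Matrix.trace_fin_two] at hτ hτu
    rw [Matrix.det_fin_two] at hd hdu
    rw [map_mul, Units.val_mul, Matrix.trace_fin_two, Matrix.mul_apply, Matrix.mul_apply,
      Fin.sum_univ_two, Fin.sum_univ_two] at hτua
    refine core ((ρ h).1 0 0) ((ρ h).1 0 1) ((ρ h).1 1 0) ((ρ h).1 1 1)
      ((ρ u).1 0 0) ((ρ u).1 0 1) ((ρ u).1 1 0) ((ρ u).1 1 1) τ τu τua δ δu hδ hτ hd hτu hdu hτua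
      ?_ ?_ ?_ ?_ ?_
    · simpa using hev 0 0
    · simpa using hev 0 1
    · simpa using hev 1 0
    · simpa using hev 1 1
    · rintro ⟨a1, a2, a3, a4⟩
      apply hu1
      apply hρ
      rw [map_one]
      apply Units.ext
      ext1 i j
      fin_cases i <;> fin_cases j
      · simpa using a1
      · simpa using a2
      · simpa using a3
      · simpa using a4
  unfold CV
  rw [hτ, hd]
  rcases key with k | k
  · left
    rw [← C_1, ← C_sub, ← C_add, k, C_0]
  · right
    rw [← C_1, ← C_add, ← C_add, k, C_0]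

end Pool.Agent.U208.FFP
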